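import Mathlib
import Pool.Agent.Q277.RGeneral

/-!
# Weighted sums of squares of `R_{n,r}` modulo `n`

For every `r` the integer `a_r = (2r+2)! ((2r+1)!!)^2` satisfies
`a_r ∑_{k<n} (2k+1) R_{k,r}^2 ≡ 0 (mod n)` for all `n ≥ 1`; in fact the quotient
`a_r S_{n,r} / n` is an integer.
-/

open Finset

namespace Pool.Agent.Results.MP_6f4751_nt.Multiplier

/-- `R_{n,r} = ∑_{k=0}^n C(n+k,2k) C(2k,k) / (2k-2r-1)`. -/
def R (n r : ℕ) : ℚ :=
  ∑ k ∈ range (n + 1), ((n + k).choose (2 * k) : ℚ) * ((2 * k).choose k : ℚ) *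
    (1 / (2 * (k : ℚ) - 2 * (r : ℚ) - 1))

/-- `S_{n,r} = ∑_{k=0}^{n-1} (2k+1) R_{k,r}^2`. -/
def S (n r : ℕ) : ℚ := ∑ k ∈ range n, (2 * (k : ℚ) + 1) * R k r ^ 2

/-- `x ≡ 0 (mod n)` for a rational `x`: `x / n` can be written as a fraction whose denominator is
coprime to `n`. -/
def CongrZero (x : ℚ) (n : ℕ) : Prop :=
  ∃ s t : ℤ, t ≠ 0 ∧ IsCoprime t (n : ℤ) ∧ x / n = s / t

/-- The multiplier `a_r = (2r+2)! ((2r+1)!!)^2`. -/
def a (r : ℕ) : ℤ := ((2 * r + 2).factorial : ℤ) * (Nat.doubleFactorial (2 * r + 1) : ℤ) ^ 2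

/-- For every `r` the explicit nonzero integer `a r` satisfies `a_r S_{n,r} ≡ 0 (mod n)` for all
positive `n`, and even `a_r S_{n,r} / n` is an integer. -/
theorem result (r : ℕ) : a r ≠ 0 ∧ ∀ n : ℕ, 1 ≤ n →
    CongrZero ((a r : ℚ) * S n r) n ∧ ∃ z : ℤ, (a r : ℚ) * S n r / n = z := by
  constructor
  · unfold a
    have h1 := (2 * r + 2).factorial_pos
    have h2 := Nat.doubleFactorial_pos (2 * r + 1)
    positivity
  · intro n hn
    obtain ⟨z, hz⟩ := Q277.RSquares.weighted r n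
    have hR : ∀ k, R k r = Q277.SqExp.R (Q277.RSquares.al r) k := by
      intro k
      unfold R Q277.SqExp.R Q277.RSquares.al
      refine Finset.sum_congr rfl fun i _ => ?_
      rw [Q277.SqExp.E_eq, show (2 * (i : ℚ) - 2 * (r : ℚ) - 1) = (2 * (i : ℚ) - (2 * r + 1)) by ring]
    have n1 : (n : ℚ) ≠ 0 := by positivity
    have h : (a r : ℚ) * S n r / n = z := by
      rw [div_eq_iff n1]
      unfold a S
      rw [Finset.sum_congr rfl fun k _ => by rw [hR k]]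
      have hD : (Q277.RSquares.D r : ℚ) = (Nat.doubleFactorial (2 * r + 1) : ℚ) := by
        unfold Q277.RSquares.D; push_cast; rfl
      rw [hD] at hz
      push_cast
      rw [hz]; ring
    exact ⟨⟨z, 1, one_ne_zero, isCoprime_one_left, by rw [h]; simp⟩, z, h⟩

end Pool.Agent.Results.MP_6f4751_nt.Multiplier
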